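import Mathlib

namespace Pool.Agent.Results.MP_59b615_al.NotIso

open Set Filter Topology

/-- Positive integers all of whose prime factors lie in `Q`. -/
def Qstar (Q : Set ℕ) : Set ℕ := {m | 0 < m ∧ ∀ p : ℕ, p.Prime → p ∣ m → p ∈ Q}

/-- The pro-`Q` topology on the integers, generated by the cosets `a + mℤ`, `m ∈ Q*`. -/
@[reducible] def tau (Q : Set ℕ) : TopologicalSpace ℤ :=
  TopologicalSpace.generateFrom {s | ∃ a : ℤ, ∃ m ∈ Qstar Q, s = {x | (m : ℤ) ∣ x - a}}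

/-- Uniformly bounded families of the profinite coarse structure. -/
def EQ (Q : Set ℕ) (𝒜 : Set (Set ℤ)) : Prop :=
  ∃ K : Set ℤ, @IsCompact ℤ (tau Q) K ∧ ∀ A ∈ 𝒜, ∃ k : ℤ, A ⊆ (fun x => k + x) '' K

/-- The word distance: least number of elements of `S ∪ -S` summing to `n - m`. -/
noncomputable def dS (S : Set ℤ) (n m : ℤ) : ℕ∞ :=
  sInf {k | ∃ l : List ℤ, (∀ s ∈ l, s ∈ S ∨ -s ∈ S) ∧ l.sum = n - m ∧ k = (l.length : ℕ∞)}

/-- Uniformly bounded families of the word-metric coarse structure. -/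
def ECay (S : Set ℤ) (𝒜 : Set (Set ℤ)) : Prop :=
  ∃ r : ℕ, ∀ A ∈ 𝒜, ∀ x ∈ A, ∀ y ∈ A, dS S x y ≤ r

/-- `f` sends uniformly bounded families to uniformly bounded families. -/
def Controlled (E E' : Set (Set ℤ) → Prop) (f : ℤ → ℤ) : Prop :=
  ∀ 𝒜, E 𝒜 → E' ((fun A => f '' A) '' 𝒜)

/-- `f` and `g` are close. -/
def Close (E : Set (Set ℤ) → Prop) (f g : ℤ → ℤ) : Prop :=
  E (range fun x => ({f x, g x} : Set ℤ))

/-- There is a coarse isomorphism of coarse groups from `(ℤ, E)` to `(ℤ, E')`. -/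
def CoarseIso (E E' : Set (Set ℤ) → Prop) : Prop :=
  ∃ f : ℤ → ℤ, Controlled E E' f ∧
    E' (range fun p : ℤ × ℤ => ({f (p.1 + p.2), f p.1 + f p.2} : Set ℤ)) ∧
    ∃ g : ℤ → ℤ, Controlled E' E g ∧ Close E (g ∘ f) id ∧ Close E' (f ∘ g) id

lemma isOpen_coset (Q : Set ℕ) (a : ℤ) {m : ℕ} (hm : m ∈ Qstar Q) :
    IsOpen[tau Q] {x | (m : ℤ) ∣ x - a} :=
  TopologicalSpace.isOpen_generateFrom_of_mem ⟨a, m, hm, rfl⟩

lemma isClosed_coset (Q : Set ℕ) (a : ℤ) {m : ℕ} (hm : m ∈ Qstar Q) :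
    IsClosed[tau Q] {x | (m : ℤ) ∣ x - a} := by
  letI := tau Q
  rw [← isOpen_compl_iff, isOpen_iff_forall_mem_open]
  intro x hx
  refine ⟨_, fun y hy h => hx ?_, isOpen_coset Q x hm, by simp⟩
  have := dvd_sub (show (m : ℤ) ∣ y - a from h) (show (m : ℤ) ∣ y - x from hy)
  show (m : ℤ) ∣ x - a
  exact (this).trans (dvd_of_eq (by ring))

lemma compact_sub (Q : Set ℕ) {K L : Set ℤ} (hK : @IsCompact ℤ (tau Q) K)
    (hL : @IsCompact ℤ (tau Q) L) :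
    @IsCompact ℤ (tau Q) ((fun p : ℤ × ℤ => p.1 - p.2) '' (K ×ˢ L)) := by
  letI := tau Q
  refine (hK.prod hL).image (continuous_generateFrom_iff.2 ?_)
  rintro _ ⟨a, m, hm, rfl⟩
  rw [isOpen_prod_iff]
  intro x y h
  refine ⟨_, _, isOpen_coset Q x hm, isOpen_coset Q y hm, by simp, by simp, ?_⟩
  rintro ⟨u, v⟩ ⟨hu, hv⟩
  have := dvd_add (show (m : ℤ) ∣ x - y - a from h)
    (dvd_sub (show (m : ℤ) ∣ u - x from hu) (show (m : ℤ) ∣ v - y from hv))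
  show (m : ℤ) ∣ u - v - a
  exact (this).trans (dvd_of_eq (by ring))

lemma exists_notMem (Q : Set ℕ) {p : ℕ} (hp : p.Prime) (hpQ : p ∈ Q) {C : Set ℤ}
    (hC : @IsCompact ℤ (tau Q) C) {m : ℕ} (hm : m ∈ Qstar Q) : ∃ x : ℤ, (m : ℤ) ∣ x ∧ x ∉ C := by
  classical
  letI := tau Q
  by_contra h
  push Not at h
  obtain ⟨z, hz⟩ := exists_surjective_nat ℤ
  let a : ℕ → ℤ := fun n => Nat.rec 0 (fun n b =>
    if ((m * p ^ (n + 1) : ℕ) : ℤ) ∣ z n - b then b + ((m * p ^ n : ℕ) : ℤ) else b) n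
  have ha : ∀ n, a (n + 1) = if ((m * p ^ (n + 1) : ℕ) : ℤ) ∣ z n - a n then
      a n + ((m * p ^ n : ℕ) : ℤ) else a n := fun n => rfl
  have hq : ∀ n, m * p ^ n ∈ Qstar Q := fun n => ⟨Nat.mul_pos hm.1 (pow_pos hp.pos n),
    fun q hq hd => ((Nat.Prime.dvd_mul hq).1 hd).elim (hm.2 q hq) fun h =>
      ((Nat.prime_dvd_prime_iff_eq hq hp).1 (hq.dvd_of_dvd_pow h)) ▸ hpQ⟩
  let D : ℕ → Set ℤ := fun n => {x | ((m * p ^ n : ℕ) : ℤ) ∣ x - a n}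
  have hd : ∀ n, ((m * p ^ n : ℕ) : ℤ) ∣ ((m * p ^ (n + 1) : ℕ) : ℤ) := fun n =>
    Int.natCast_dvd_natCast.2 (mul_dvd_mul_left _ (pow_dvd_pow _ (Nat.le_succ n)))
  obtain ⟨x, hx⟩ := IsCompact.nonempty_iInter_of_sequence_nonempty_isCompact_isClosed D
    (fun n x hx => by
      have h1 : ((m * p ^ n : ℕ) : ℤ) ∣ x - a (n + 1) := (hd n).trans hx
      show ((m * p ^ n : ℕ) : ℤ) ∣ x - a n
      rw [ha] at h1
      split_ifs at h1
      · exact (dvd_add h1 dvd_rfl).trans (dvd_of_eq (by ring))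
      · exact h1)
    (fun n => ⟨a n, by simp [D]⟩)
    (hC.of_isClosed_subset (isClosed_coset Q _ (hq 0)) fun x hx => h x (by simpa [D, a] using hx))
    fun n => isClosed_coset Q _ (hq n)
  obtain ⟨n, rfl⟩ := hz x
  have h1 : ((m * p ^ (n + 1) : ℕ) : ℤ) ∣ z n - a (n + 1) := mem_iInter.1 hx (n + 1)
  rw [ha] at h1
  split_ifs at h1 with h2
  · have h3 : ((m * p ^ (n + 1) : ℕ) : ℤ) ∣ ((m * p ^ n : ℕ) : ℤ) := by
      exact (dvd_sub h2 h1).trans (dvd_of_eq (by ring))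
    have h4 := Nat.le_of_dvd (hq n).1 (Int.natCast_dvd_natCast.1 h3)
    have h5 := Nat.le_of_mul_le_mul_left h4 hm.1
    exact absurd h5 (not_le.2 (Nat.pow_lt_pow_right hp.one_lt (Nat.lt_succ_self n)))
  · exact h2 h1

/-- No sequence of compact sets is cofinal among the compact sets. -/
lemma not_hemi (Q : Set ℕ) {p : ℕ} (hp : p.Prime) (hpQ : p ∈ Q) (C : ℕ → Set ℤ)
    (hC : ∀ r, @IsCompact ℤ (tau Q) (C r)) :
    ∃ K : Set ℤ, @IsCompact ℤ (tau Q) K ∧ 0 ∈ K ∧ ∀ r, ¬ K ⊆ C r := by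
  classical
  letI := tau Q
  let M : ℕ → ℕ := fun r => ∏ j ∈ (Finset.range (r + 1)).filter (· ∈ Qstar Q), j
  have hM : ∀ r, M r ∈ Qstar Q := fun r =>
    ⟨Finset.prod_pos fun j hj => (Finset.mem_filter.1 hj).2.1, fun q hq hd => by
      obtain ⟨j, hj, h⟩ := (Prime.dvd_finset_prod_iff hq.prime _).1 hd
      exact (Finset.mem_filter.1 hj).2.2 q hq h⟩
  choose x hx hx' using fun r => exists_notMem Q hp hpQ (hC r) (hM r)
  have ht : Tendsto x atTop (𝓝 0) := by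
    refine TopologicalSpace.tendsto_nhds_generateFrom_iff.2 ?_
    rintro _ ⟨a, m, hm, rfl⟩ h0
    filter_upwards [eventually_ge_atTop m] with r hr
    have h1 : m ∣ M r := Finset.dvd_prod_of_mem _
      (Finset.mem_filter.2 ⟨Finset.mem_range.2 (Nat.lt_succ_of_le hr), hm⟩)
    have h2 := dvd_add ((Int.natCast_dvd_natCast.2 h1).trans (hx r))
      (show (m : ℤ) ∣ 0 - a from h0)
    show (m : ℤ) ∣ x r - a
    exact (h2).trans (dvd_of_eq (by ring))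
  exact ⟨_, ht.isCompact_insert_range, mem_insert _ _,
    fun r h => hx' r (h (mem_insert_of_mem _ ⟨r, rfl⟩))⟩

theorem main (Q : Set ℕ) {p : ℕ} (hp : p.Prime) (hpQ : p ∈ Q) (S : Set ℤ) (f g : ℤ → ℤ)
    (hf : Controlled (EQ Q) (ECay S) f) (hg : Controlled (ECay S) (EQ Q) g)
    (hgf : Close (EQ Q) (g ∘ f) id) : False := by
  letI := tau Q
  obtain ⟨L, hL, hL'⟩ := hgf
  have := fun r : ℕ => hg {A | ∀ x ∈ A, ∀ y ∈ A, dS S x y ≤ r} ⟨r, fun A hA => hA⟩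
  choose K hK hK' using this
  let sub : Set ℤ → Set ℤ → Set ℤ := fun A B => (fun p : ℤ × ℤ => p.1 - p.2) '' (A ×ˢ B)
  obtain ⟨Z, hZ, h0, hZ'⟩ := not_hemi Q hp hpQ
    (fun r => sub (sub (sub (K r) (K r)) (sub L L)) {-g (f 0)})
    fun r => compact_sub Q (compact_sub Q (compact_sub Q (hK r) (hK r)) (compact_sub Q hL hL))
      isCompact_singleton
  obtain ⟨r, hr⟩ := hf {Z} ⟨Z, hZ, fun A hA => ⟨0, by simp [show A = Z from hA]⟩⟩
  refine hZ' r fun z hz => ?_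
  obtain ⟨k, hk⟩ := hK' r _ ⟨f '' Z, hr _ ⟨Z, rfl, rfl⟩, rfl⟩
  obtain ⟨a, ha, ha'⟩ := hk ⟨f z, ⟨z, hz, rfl⟩, rfl⟩
  obtain ⟨b, hb, hb'⟩ := hk ⟨f 0, ⟨0, h0, rfl⟩, rfl⟩
  obtain ⟨j, hj⟩ := hL' _ ⟨z, rfl⟩
  obtain ⟨c, hc, hc'⟩ := hj (mem_insert _ _)
  obtain ⟨d, hd, hd'⟩ := hj (mem_insert_of_mem _ rfl)
  refine ⟨(a - b - (c - d), -g (f 0)), ⟨⟨(a - b, c - d), ⟨⟨(a, b), ⟨ha, hb⟩, rfl⟩,
    ⟨(c, d), ⟨hc, hd⟩, rfl⟩⟩, rfl⟩, rfl⟩, ?_⟩
  simp only [Function.comp_apply, id] at ha' hb' hc' hd' ⊢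
  omega

theorem result (Q : Set ℕ) (hQ : ∀ p ∈ Q, p.Prime) (hne : Q.Nonempty) (S : Set ℤ) :
    ¬ CoarseIso (EQ Q) (ECay S) ∧ ¬ CoarseIso (ECay S) (EQ Q) := by
  obtain ⟨p, hp⟩ := hne
  constructor
  · rintro ⟨f, hf, -, g, hg, h, -⟩
    exact main Q (hQ p hp) hp S f g hf hg h
  · rintro ⟨g, hg, -, f, hf, -, h⟩
    exact main Q (hQ p hp) hp S f g hf hg h

end Pool.Agent.Results.MP_59b615_al.NotIso
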